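import Pool.Agent.Q230.SN.Mem

/-!
# Testing an upper bound on the spectral norm of a 3-tensor is complete for `∀ℝ`

Sketch of the hardness proof.  A system `S` of constraints is turned into a system of homogeneous
quadratic equations `g = 0` (`g ∈ G`) in variables `x₀, x₁, …` containing a long chain of squarings;
let `t` be the last member of the chain.  If `S` is satisfiable then the equations have a solution
with `t x₀ > 0`; if `S` is not satisfiable then a root bound gives
`(2 t x₀)² ≤ |G| ∑ g(x)²` for all real `x`.  Let `g(x,y)` be the polarization of `g` and `b(x,y)` the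
polarization of `2 t x₀`.  For `m = |G|` the form
`1152 m² (|x|²|y|² + ⟨x,y⟩²) - m ∑ g(x,y)² + b(x,y)²` is a sum `∑ A_k(x,y)²` of squares of explicit
bilinear forms with integer coefficients, and the tensor `∑ z_k A_k(x,y)` has spectral norm greater
than `48 m` if and only if `S` is satisfiable.
-/

namespace Pool.Agent.Results.MP_50cd9e_lc.SpectralNormComplete

open Pool.Agent.NPC Pool.Agent.NPC.ER Pool.Agent.Q230.SN

/-- SPECTRAL-NORM-BOUND is `∀ℝ`-complete; equivalently SPECTRAL-NORM-EXCEED is `∃ℝ`-complete. -/
theorem result : ARComplete (lang SpectralNormBound) ∧ ERComplete (lang SpectralNormExceed) :=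
  ⟨⟨Pool.Agent.NPC.Q230SN.bound_mem, Pool.Agent.NPC.Q230SN.bound_hard⟩,
    ⟨Pool.Agent.NPC.Q230SN.exceed_mem, Pool.Agent.NPC.Q230SN.exceed_hard⟩⟩

end Pool.Agent.Results.MP_50cd9e_lc.SpectralNormComplete
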